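import Mathlib
import Pool.Agent.E96.Attain

/-!
# Ratio asymptotics of monic `L^p` extremal polynomials on the line (MP_e96e6f_an)

Let `α` be a finite positive Borel measure on the real line whose absolutely continuous part has a
density which is positive almost everywhere on `(a,b)`, and such that the support of `α` outside of
`(a-ε, b+ε)` is finite for every `ε > 0`. Then, for every `0 < p < ∞`, the extremal values
`E_n(ℝ, α, p)` satisfy `E_{n+1} / E_n → (b - a) / 4`.

Sketch of the proof. After an affine change of variables and the removal of finitely many point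
masses one works on `[-1,1]`, on the upper unit half circle `z = x + i √(1-x²)`. One chooses a
polynomial `g > 0` such that `g^(p/2) α` is close to the arcsine law on a large set. For `p < 2`
one regularises the functional `∫ |P|^p dα` to a concave function of `P²`, so that its minimiser is
an `L²` minimiser for an auxiliary weight; for `p ≥ 2` one uses the extremal polynomial on the
circle and convexity. In both cases the Bernstein–Szegő identity, together with the fact that
`Re (z^(N+1) conj t / t)` has the arcsine law for every zero-free `t`, shows that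
`λ g / |t|²` is close to one, and competitors of degree `n ± 1` are built from `t`.
-/

namespace Pool.Agent.Results.MP_e96e6f_an.RatioAsymptotics

open MeasureTheory Polynomial Set Filter Topology
open Pool.Agent.E96 (J JJ)

/-- The set of all values `[∫ |P(x)|^p dα(x)]^(1/p)`, where `P` runs through the real monic
polynomials of degree `n`. -/
def monicNorms (α : Measure ℝ) (p : ℝ) (n : ℕ) : Set ℝ :=
  {r | ∃ P : ℝ[X], P.Monic ∧ P.natDegree = n ∧ r = (∫ x, |P.eval x| ^ p ∂α) ^ (1 / p)}

/-- The extremal value `E_n(ℝ, α, p)`. -/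
noncomputable def extremalValue (α : Measure ℝ) (p : ℝ) (n : ℕ) : ℝ :=
  sInf (monicNorms α p n)

lemma extremalValue_eq (α : Measure ℝ) {p : ℝ} (hp : 0 < p) (n : ℕ) :
    extremalValue α p n = (JJ α p n) ^ (1 / p) := by
  have hne : (monicNorms α p n).Nonempty :=
    ⟨_, X ^ n, monic_X_pow n, natDegree_X_pow n, rfl⟩
  have hp' : 0 < 1 / p := by positivity
  refine le_antisymm ?_ ?_
  · have h0 : 0 ≤ extremalValue α p n := by
      refine le_csInf hne ?_
      rintro r ⟨P, _, _, rfl⟩
      exact Real.rpow_nonneg (Pool.Agent.E96.J_nonneg α p P) _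
    have h1 : (extremalValue α p n) ^ p ≤ JJ α p n := by
      refine Pool.Agent.E96.le_JJ fun P hP hPn => ?_
      have h2 : extremalValue α p n ≤ (J α p P) ^ (1 / p) := by
        refine csInf_le ⟨0, ?_⟩ ⟨P, hP, hPn, rfl⟩
        rintro r ⟨Q, _, _, rfl⟩
        exact Real.rpow_nonneg (Pool.Agent.E96.J_nonneg α p Q) _
      have h3 := Real.rpow_le_rpow h0 h2 hp.le
      rwa [← Real.rpow_mul (Pool.Agent.E96.J_nonneg α p P), one_div, inv_mul_cancel₀ hp.ne',
        Real.rpow_one] at h3
    have h4 := Real.rpow_le_rpow (Real.rpow_nonneg h0 p) h1 hp'.le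
    rwa [← Real.rpow_mul h0, mul_one_div_cancel hp.ne', Real.rpow_one] at h4
  · refine le_csInf hne ?_
    rintro r ⟨P, hP, hPn, rfl⟩
    exact Real.rpow_le_rpow (Pool.Agent.E96.JJ_nonneg α p n) (Pool.Agent.E96.JJ_le hP hPn) hp'.le

/-- For reference: under the hypotheses of the problem the infimum is a minimum. -/
theorem isLeast_extremalValue (α : Measure ℝ) [IsFiniteMeasure α] (a b : ℝ) (hab : a < b)
    (H1 : ∀ᵐ x ∂(volume.restrict (Ioo a b)), 0 < α.rnDeriv volume x)
    (H2 : ∀ ε : ℝ, 0 < ε → (α.support \ Ioo (a - ε) (b + ε)).Finite)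
    (p : ℝ) (hp : 0 < p) (n : ℕ) :
    IsLeast (monicNorms α p n) (extremalValue α p n) := by
  obtain ⟨P, hP, hPn, hmin⟩ := Pool.Agent.E96.exists_min_of_H2 hab
    (Pool.Agent.E96.ac_of_rnDeriv H1) H2 hp n
  have hlow : (J α p P) ^ (1 / p) ∈ lowerBounds (monicNorms α p n) := by
    rintro r ⟨Q, hQ, hQn, rfl⟩
    exact Real.rpow_le_rpow (Pool.Agent.E96.J_nonneg α p P) (hmin Q hQ hQn) (by positivity)
  have hl : IsLeast (monicNorms α p n) ((J α p P) ^ (1 / p)) := ⟨⟨P, hP, hPn, rfl⟩, hlow⟩
  have h1 : extremalValue α p n = (J α p P) ^ (1 / p) := hl.csInf_eq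
  rw [h1]
  exact hl

/-- **Ratio asymptotics of monic `L^p` extremal polynomials.** Let `α` be a finite positive Borel
measure on `ℝ` with `α' > 0` almost everywhere on `(a,b)` (H1), whose support outside of
`(a-ε,b+ε)` is finite for every `ε > 0` (H2). Then for every `0 < p < ∞` the extremal values
satisfy `E_{n+1}(ℝ, α, p) / E_n(ℝ, α, p) → (b-a)/4`. -/
theorem result (α : Measure ℝ) [IsFiniteMeasure α] (a b : ℝ) (hab : a < b)
    (H1 : ∀ᵐ x ∂(volume.restrict (Ioo a b)), 0 < α.rnDeriv volume x)
    (H2 : ∀ ε : ℝ, 0 < ε → (α.support \ Ioo (a - ε) (b + ε)).Finite)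
    (p : ℝ) (hp : 0 < p) :
    Tendsto (fun n : ℕ => extremalValue α p (n + 1) / extremalValue α p n) atTop
      (𝓝 ((b - a) / 4)) := by
  have h1 := Pool.Agent.E96.ratio_JJ hab (Pool.Agent.E96.ac_of_rnDeriv H1) H2 hp
  have hp' : 0 < 1 / p := by positivity
  have h0 : 0 ≤ (b - a) / 4 := by linarith
  have h2 := h1.rpow_const (p := 1 / p) (Or.inr hp'.le)
  rw [← Real.rpow_mul h0, mul_one_div_cancel hp.ne', Real.rpow_one] at h2
  refine h2.congr fun n => ?_
  rw [extremalValue_eq α hp, extremalValue_eq α hp,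
    Real.div_rpow (Pool.Agent.E96.JJ_nonneg α p _) (Pool.Agent.E96.JJ_nonneg α p _)]

end Pool.Agent.Results.MP_e96e6f_an.RatioAsymptotics
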